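import Pool.Agent.H72.EZ.Final

/-!
# A null set of levels on which closed orbits can never be removed

Negative answer to Q1 of MP_880fad_gt, in a strong form: for every `n ≥ 1` there is one compact
Lebesgue-null set `K ⊆ [1,2]` such that for all `λ_j > 0` every function `H = H₀ ∘ ψ`, where `ψ` is a
smooth diffeomorphism of `ℝ^{2n}` equal to the identity outside a compact set, has a closed
trajectory on the level `{H = a}` for some `a ∈ K`. Every `ε`-admissible function of the problem, for
every `ε`, is of this form.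
-/

open MeasureTheory Set
open scoped ContDiff

namespace Pool.Agent.Results.MP_880fad_gt.NullSetOfLevels

open Pool.Agent.H72.EZ

/-- For every `n ≥ 1` there is a compact Lebesgue-null set `K ⊆ [1,2]` such that for all
`λ_j > 0` and every smooth diffeomorphism `ψ` of `ℝ^{2n}` which is the identity outside a compact
set, the function `H = H₀ ∘ ψ`, `H₀ = ∑ λ_j |z_j|²`, has a closed (non-constant periodic)
trajectory on the level `{H = a}` for some `a ∈ K`. -/
theorem result (n : ℕ) (hn : 1 ≤ n) :
    ∃ K : Set ℝ, IsCompact K ∧ K ⊆ Icc 1 2 ∧ volume K = 0 ∧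
      ∀ lam : Fin n → ℝ, (∀ j, 0 < lam j) →
        ∀ ψ ψ' : Ph n → Ph n, ContDiff ℝ ∞ ψ → ContDiff ℝ ∞ ψ' →
          (∀ z, ψ' (ψ z) = z) → (∀ z, ψ (ψ' z) = z) →
          (∃ Kc : Set (Ph n), IsCompact Kc ∧ ∀ z, z ∉ Kc → ψ z = z) →
            ∃ a ∈ K, HasClosedTrajectory (fun z => H0 lam (ψ z)) a :=
  strong n hn

end Pool.Agent.Results.MP_880fad_gt.NullSetOfLevels
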